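import Pool.Agent.K7.H40.GM.Fam
import Pool.Agent.K7.H40.GM.Osc
import Pool.Agent.K7.H40.GM.Ku

/-!
# Generic metrics on closed surfaces: convergence of the local statistics

`(g_f)`, `f ∈ F`, is a family of Riemannian metrics on a closed surface `M`, with a Baire space `F` of
parameters, which is continuous in the weak sense that for all `f₀` and `ε > 0` the metrics `g_f` and
`g_{f₀}` differ at most by the factor `(1 + ε) ^ 2` if `f` is near `f₀`. This covers the space of all
smooth metrics with negative curvature and area one with the `C^∞` topology (the continuous coframe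
`A f i` of the metric in a chart is the positive square root of its matrix), and any other Baire space
of metrics whose topology is finer than the uniform one. The unfolded levels `x 0 ≤ x 1 ≤ ...` are the
eigenvalues of the Laplacian times `area / (4 π)`. The local statistics are the nearest neighbour
spacings and all `n`-point correlations, with the averages `1 / T` over `x_k ≤ T` of the problem; `ν` is
an arbitrary family of candidates for the limits, for instance the statistics of the GOE.

* The unfolded levels exist, depend continuously on the metric and have mean spacing one.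
* For the generic metric all local statistics converge to `ν` if and only if for every test function
  and every `ε > 0` every nonempty open set of metrics contains a nonempty open subset on which the
  statistic is within `ε` of its limit from some height `T₀` on; and here it suffices to consider the
  metrics of any dense set.
* If not, there are one test function, one `ε > 0` and a nonempty open set of metrics such that for the
  generic metric of this set the deviation is larger than `ε` for arbitrarily large `T`.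
* If yes, the metrics for which the deviation is larger than `ε` for arbitrarily large `T` are nowhere
  dense, for every test function and every `ε > 0`.
* It suffices to consider generic members of generic deformations: the statistics converge to `ν` for
  the generic metric if and only if for the generic `f` they converge to `ν` for the generic parameter
  `y` of a given deformation `θ (f, y)`, for instance for the generic conformal deformation
  `exp φ · g_f`, or for the generic member of the one-parameter family `exp (t h) · g_f`.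
* The same criterion and the same alternative for the convergence to limits which may depend on the
  metric.
-/

set_option autoImplicit false

open Set Filter Topology MeasureTheory
open scoped Real ContDiff
open Pool.Agent.Y262.QE

noncomputable section

namespace Pool.Agent.Results.MP_a825e8_mp.GenericConvergence

/-- the surface with the charts of `D` and with the metric `v ↦ ‖A i z v‖ ^ 2` in the chart `i` -/
def metric {M : Type} (D : Data M) (A : Fin D.N → ℂ → ℂ →L[ℝ] ℂ) : Data M :=
  ⟨D.N, D.U, D.φ, D.ψ, A⟩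

/-- The family of the metrics `g_f = ‖A f i z v‖ ^ 2` is continuous: `g_f ≤ (1 + ε) ^ 2 g_{f₀}` and
`g_{f₀} ≤ (1 + ε) ^ 2 g_f` for all `f` near `f₀`. -/
def IsContinuousFamily {M : Type} (D : Data M) {F : Type} [TopologicalSpace F]
    (A : F → Fin D.N → ℂ → ℂ →L[ℝ] ℂ) : Prop :=
  ∀ f₀ : F, ∀ ε : ℝ, 0 < ε → ∀ᶠ f in 𝓝 f₀, ∀ i, ∀ z ∈ D.T i, ∀ v,
    ‖A f i z v‖ ≤ (1 + ε) * ‖A f₀ i z v‖ ∧ ‖A f₀ i z v‖ ≤ (1 + ε) * ‖A f i z v‖

/-- `u 0, u 1, ...` is an orthonormal basis of `L² (μ)` which consists of eigenfunctions of the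
Laplacian of the surface `D` with the area `μ`; the eigenvalues `lam 0 ≤ lam 1 ≤ ...` are ordered -/
structure IsEigenbasis {M : Type} [MeasurableSpace M] (D : Data M) (μ : Measure M)
    (u : ℕ → M → ℝ) (lam : ℕ → ℝ) : Prop where
  eig : ∀ j, D.IsEig μ (lam j) (u j)
  mono : Monotone lam
  orth : ∀ i j, ∫ x, u i x * u j x ∂μ = if i = j then 1 else 0
  total : ∀ f : M → ℝ, MemLp f 2 μ → (∀ j, ∫ x, f x * u j x ∂μ = 0) → f =ᵐ[μ] 0

/-- `x` is the sequence of the unfolded levels of the surface `D` with the area `μ`: the eigenvalues,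
listed with multiplicity, times the total area divided by `4 π` -/
def IsUnfolded {M : Type} [MeasurableSpace M] (D : Data M) (μ : Measure M) (x : ℕ → ℝ) : Prop :=
  ∃ (u : ℕ → M → ℝ) (lam : ℕ → ℝ), IsEigenbasis D μ u lam ∧
    ∀ k, x k = μ.real univ / (4 * π) * lam k

/-- the number of the levels `x k ≤ T` -/
def number (T : ℝ) (x : ℕ → ℝ) : ℕ := Set.ncard {k : ℕ | x k ≤ T}

/-- number of variables of the test functions -/
def dim : Option ℕ → ℕ
  | none => 1
  | some n => n + 1

open Classical in
/-- The local statistics at height `T`: for `none` the nearest neighbour spacings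
`(1/T) ∑_{x_k ≤ T} t(x_{k+1} - x_k)`, for `some n` the `(n+2)`-point correlation
`(1/T) ∑ t(x_{k_1} - x_{k_0}, ..., x_{k_{n+1}} - x_{k_0})` over the pairwise distinct indices
`k_0, ..., k_{n+1}` with `x_{k_i} ≤ T`. -/
def statistic : (a : Option ℕ) → ((Fin (dim a) → ℝ) → ℝ) → ℝ → (ℕ → ℝ) → ℝ
  | none, t, T, x => (∑ k ∈ Finset.range (number T x), t (fun _ => x (k + 1) - x k)) / T
  | some n, t, T, x => (∑ σ ∈ (Fintype.piFinset
      (fun _ : Fin (n + 2) => Finset.range (number T x))).filter (fun σ => Function.Injective σ),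
      t (fun j => x (σ j.succ) - x (σ 0))) / T

/-- continuous test functions with compact support -/
def Test {d : ℕ} (t : (Fin d → ℝ) → ℝ) : Prop := Continuous t ∧ HasCompactSupport t

/-- all local statistics of `x` converge to `ν` -/
def Converges (ν : ∀ a, Measure (Fin (dim a) → ℝ)) (x : ℕ → ℝ) : Prop :=
  ∀ a (t : (Fin (dim a) → ℝ) → ℝ), Test t →
    Tendsto (fun T => statistic a t T x) atTop (𝓝 (∫ z, t z ∂(ν a)))

/-- Every nonempty open set of parameters contains a nonempty open set `V` such that the statistic of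
`x f` is within `ε` of `c` for all `f ∈ V ∩ S` and all large `T`, uniformly in `f`. -/
def LocallyUniform {F : Type} [TopologicalSpace F] (x : F → ℕ → ℝ) (S : Set F) (a : Option ℕ)
    (t : (Fin (dim a) → ℝ) → ℝ) (c : ℝ) : Prop :=
  ∀ ε : ℝ, 0 < ε → ∀ U : Set F, IsOpen U → U.Nonempty →
    ∃ V : Set F, IsOpen V ∧ V.Nonempty ∧ V ⊆ U ∧ ∃ T₀ : ℝ, ∀ f ∈ V, f ∈ S → ∀ T, T₀ ≤ T →
      |statistic a t T (x f) - c| ≤ ε

/-- the same for the oscillation of the statistic -/
def LocallyCauchy {F : Type} [TopologicalSpace F] (x : F → ℕ → ℝ) (a : Option ℕ)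
    (t : (Fin (dim a) → ℝ) → ℝ) : Prop :=
  ∀ ε : ℝ, 0 < ε → ∀ U : Set F, IsOpen U → U.Nonempty →
    ∃ V : Set F, IsOpen V ∧ V.Nonempty ∧ V ⊆ U ∧ ∃ T₀ : ℝ, ∀ f ∈ V, ∀ T, T₀ ≤ T → ∀ T', T₀ ≤ T' →
      |statistic a t T (x f) - statistic a t T' (x f)| ≤ ε

theorem result (M : Type) [MetricSpace M] [CompactSpace M] [MeasurableSpace M] [BorelSpace M]
    [Nonempty M] (D : Data M) (F : Type) [TopologicalSpace F] [BaireSpace F]
    (A : F → Fin D.N → ℂ → ℂ →L[ℝ] ℂ) (μ : F → Measure M)
    (hD : ∀ f, (metric D (A f)).IsSurf (μ f)) (hA : IsContinuousFamily D A) :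
    -- the unfolded levels exist
    (∀ f, ∃ x, IsUnfolded (metric D (A f)) (μ f) x) ∧
    ∀ x : F → ℕ → ℝ, (∀ f, IsUnfolded (metric D (A f)) (μ f) (x f)) →
      -- continuity and mean spacing one
      (∀ k, Continuous fun f => x f k) ∧
      (∀ f, Tendsto (fun T : ℝ => (number T (x f) : ℝ) / T) atTop (𝓝 1)) ∧
      -- generic convergence to given limits
      (∀ ν : ∀ a, Measure (Fin (dim a) → ℝ), (∀ a, IsFiniteMeasureOnCompacts (ν a)) →
        (∀ S : Set F, Dense S → ((∀ᶠ f in residual F, Converges ν (x f)) ↔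
          ∀ a (t : (Fin (dim a) → ℝ) → ℝ), Test t → LocallyUniform x S a t (∫ z, t z ∂(ν a)))) ∧
        ((¬ ∀ᶠ f in residual F, Converges ν (x f)) →
          ∃ a, ∃ t : (Fin (dim a) → ℝ) → ℝ, Test t ∧ ∃ ε : ℝ, 0 < ε ∧
            ∃ U : Set F, IsOpen U ∧ U.Nonempty ∧ ∀ᶠ f in residual F, f ∈ U →
              ∀ T₀ : ℝ, ∃ T, T₀ ≤ T ∧ ε < |statistic a t T (x f) - ∫ z, t z ∂(ν a)|) ∧
        ((∀ᶠ f in residual F, Converges ν (x f)) →
          ∀ a (t : (Fin (dim a) → ℝ) → ℝ), Test t → ∀ ε : ℝ, 0 < ε →
            IsNowhereDense {f | ∀ T₀ : ℝ, ∃ T, T₀ ≤ T ∧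
              ε < |statistic a t T (x f) - ∫ z, t z ∂(ν a)|}) ∧
        -- deformations `θ (f, y)`, defined for the pairs `(f, y)` in the open set `O`
        ∀ (Y : Type) [TopologicalSpace Y] [SecondCountableTopology Y] [BaireSpace Y]
          (O : Set (F × Y)) (θ : F × Y → F) (y₀ : Y), IsOpen O → ContinuousOn θ O →
          (∀ W ⊆ O, IsOpen W → IsOpen (θ '' W)) → (∀ f, (f, y₀) ∈ O ∧ θ (f, y₀) = f) →
          ((∀ᶠ f in residual F, Converges ν (x f)) ↔
            ∀ᶠ f in residual F, ∀ᶠ y in residual Y, (f, y) ∈ O → Converges ν (x (θ (f, y))))) ∧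
      -- generic convergence to limits which may depend on the metric
      ((∀ᶠ f in residual F, ∀ a (t : (Fin (dim a) → ℝ) → ℝ), Test t →
          ∃ c, Tendsto (fun T => statistic a t T (x f)) atTop (𝓝 c)) ↔
        ∀ a (t : (Fin (dim a) → ℝ) → ℝ), Test t → LocallyCauchy x a t) ∧
      ((¬ ∀ᶠ f in residual F, ∀ a (t : (Fin (dim a) → ℝ) → ℝ), Test t →
          ∃ c, Tendsto (fun T => statistic a t T (x f)) atTop (𝓝 c)) →
        ∃ a, ∃ t : (Fin (dim a) → ℝ) → ℝ, Test t ∧ ∃ ε : ℝ, 0 < ε ∧
          ∃ U : Set F, IsOpen U ∧ U.Nonempty ∧ ∀ᶠ f in residual F, f ∈ U →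
            ∀ T₀ : ℝ, ∃ T, T₀ ≤ T ∧ ∃ T', T₀ ≤ T' ∧
              ε < |statistic a t T (x f) - statistic a t T' (x f)|) := by
  have hA' : Pool.Agent.K7.H40.GM.Family D.U D.φ A := ⟨hA⟩
  refine ⟨fun f => ?_, ?_⟩
  · obtain ⟨x, u, lam, hu, hx⟩ := Pool.Agent.K7.H40.GM.unf_ex (μ f) (metric D (A f)) (hD f)
    exact ⟨x, u, lam, ⟨hu.eig, hu.mono, hu.orth, hu.total⟩, hx⟩
  intro x hx
  have hx' : ∀ f, Pool.Agent.K7.H40.GM.Unf (metric D (A f)) (μ f) (x f) := by
    intro f
    obtain ⟨u, lam, hu, hxk⟩ := hx f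
    exact ⟨u, lam, ⟨hu.eig, hu.mono, hu.orth, hu.total⟩, hxk⟩
  set X : Pool.Agent.Q205.Baire.Spectra F :=
    Pool.Agent.K7.H40.GM.spec (U := D.U) (φ := D.φ) (ψ := D.ψ) hD hA' x hx' with hX
  let stat : ∀ a : Option ℕ, Pool.Agent.Q205.Baire.LocalStat (Fin (dim a) → ℝ) := fun a =>
    match a with
    | none =>
      { ι := ℕ
        I := fun N => Finset.range N
        φ := fun k y => fun _ => y (k + 1) - y k
        cont := fun k => by fun_prop }
    | some n =>
      { ι := Fin (n + 2) → ℕ
        I := fun N => by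
          classical
          exact (Fintype.piFinset (fun _ => Finset.range N)).filter (fun σ => Function.Injective σ)
        φ := fun σ y => fun j => y (σ j.succ) - y (σ 0)
        cont := fun σ => by fun_prop }
  have hstat : ∀ (a : Option ℕ) (t : (Fin (dim a) → ℝ) → ℝ) (T : ℝ) (f : F),
      Pool.Agent.Q205.Baire.S X (stat a) t T f = statistic a t T (x f) := by
    intro a t T f
    rcases a with _ | n
    · rfl
    · rfl
  have hgood : ∀ (ν : ∀ a, Measure (Fin (dim a) → ℝ)) (f : F),
      Pool.Agent.Q205.Baire.Good X dim stat ν f ↔ Converges ν (x f) := by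
    intro ν f
    constructor
    · intro h a t ht
      exact (h a t ht.1 ht.2).congr fun T => hstat a t T f
    · intro h a t ht hs
      exact (h a t ⟨ht, hs⟩).congr fun T => (hstat a t T f).symm
  have hfreq : ∀ (a : Option ℕ) (t : (Fin (dim a) → ℝ) → ℝ) (c ε : ℝ) (f : F),
      (∃ᶠ T in atTop, ε < |Pool.Agent.Q205.Baire.S X (stat a) t T f - c|) ↔
        ∀ T₀ : ℝ, ∃ T, T₀ ≤ T ∧ ε < |statistic a t T (x f) - c| := by
    intro a t c ε f
    rw [frequently_atTop]
    simp only [hstat, ge_iff_le]
  refine ⟨Pool.Agent.K7.H40.GM.unf_cont (U := D.U) (φ := D.φ) (ψ := D.ψ) hD hA' hx', fun f => ?_,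
    ?_, ?_, ?_⟩
  · exact Pool.Agent.Q205.Baire.count_div X f (Pool.Agent.K7.H40.GM.unf_div (hD f) (hx' f))
  · intro ν hν
    haveI := hν
    have hev : (∀ᶠ f in residual F, Converges ν (x f)) ↔
        ∀ᶠ f in residual F, Pool.Agent.Q205.Baire.Good X dim stat ν f := by
      simp only [hgood]
    have hfail : (¬ ∀ᶠ f in residual F, Converges ν (x f)) →
        ∃ a, ∃ t : (Fin (dim a) → ℝ) → ℝ, Test t ∧ ∃ ε : ℝ, 0 < ε ∧
          ∃ U : Set F, IsOpen U ∧ U.Nonempty ∧ ∀ᶠ f in residual F, f ∈ U →
            ∀ T₀ : ℝ, ∃ T, T₀ ≤ T ∧ ε < |statistic a t T (x f) - ∫ z, t z ∂(ν a)| := by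
      intro hn
      rw [hev] at hn
      obtain ⟨a, t, ht, hs, ε, hε, U, hU, hne, h⟩ :=
        Pool.Agent.Q205.Baire.main_dichotomy X dim stat ν hn
      refine ⟨a, t, ⟨ht, hs⟩, ε, hε, U, hU, hne, ?_⟩
      filter_upwards [h] with f hf hfU
      exact (hfreq a t _ ε f).1 (hf hfU)
    refine ⟨fun S hS => ?_, hfail, fun hc a t ht ε hε => ?_,
      fun Y _ _ _ O θ y₀ hO hc ho h0 => ?_⟩
    · rw [hev, Pool.Agent.Q205.Baire.main_iff X dim stat ν]
      constructor
      · intro h a t ht ε hε U hU hne
        obtain ⟨V, hV, hVne, hVU, T₀, hT₀⟩ := h a t ht.1 ht.2 ε hε U hU hne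
        refine ⟨V, hV, hVne, hVU, T₀, fun f hf _ T hT => ?_⟩
        have := hT₀ f hf T hT
        rwa [hstat] at this
      · intro h a t ht hs
        refine Pool.Agent.K7.H40.GM.locUnif_dense
          (Pool.Agent.Q205.Baire.nice_S X (stat a) ht) hS fun ε hε U hU hne => ?_
        obtain ⟨V, hV, hVne, hVU, T₀, hT₀⟩ := h a t ⟨ht, hs⟩ ε hε U hU hne
        refine ⟨V, hV, hVne, hVU, T₀, fun f hf hfS T hT => ?_⟩
        rw [hstat]
        exact hT₀ f hf hfS T hT
    · have h := Pool.Agent.Q205.Baire.main_nowhere X (stat a) ht.1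
        (c := ∫ z, t z ∂(ν a)) hε (by
          filter_upwards [hc] with f hf
          exact (hf a t ht).congr fun T => (hstat a t T f).symm)
      simp only [hfreq] at h
      exact h
    · refine Pool.Agent.K7.H40.GM.defo_iff hO hc ho h0 (p := fun f => Converges ν (x f))
        fun hn => ?_
      obtain ⟨a, t, ht, ε, hε, U, hU, hne, h⟩ := hfail hn
      refine ⟨U, hU, hne, ?_⟩
      filter_upwards [h] with f hf hfU hcv
      have h1 := (Metric.tendsto_nhds.1 (hcv a t ht)) ε hε
      obtain ⟨T₀, hT₀⟩ := eventually_atTop.1 h1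
      obtain ⟨T, hT, hd⟩ := hf hfU T₀
      have h2 := hT₀ T hT
      rw [Real.dist_eq] at h2
      linarith
  · have h := Pool.Agent.K7.H40.GM.conv_iff X dim stat
    constructor
    · intro hc a t ht
      have h1 := h.1 (by
        filter_upwards [hc] with f hf a t ht hs
        obtain ⟨c, hc⟩ := hf a t ⟨ht, hs⟩
        exact ⟨c, hc.congr fun T => (hstat a t T f).symm⟩) a t ht.1 ht.2
      intro ε hε U hU hne
      obtain ⟨V, hV, hVne, hVU, T₀, hT₀⟩ := h1 ε hε U hU hne
      refine ⟨V, hV, hVne, hVU, T₀, fun f hf T hT T' hT' => ?_⟩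
      have := hT₀ f hf T hT T' hT'
      rwa [hstat, hstat] at this
    · intro hc
      have h1 := h.2 (by
        intro a t ht hs ε hε U hU hne
        obtain ⟨V, hV, hVne, hVU, T₀, hT₀⟩ := hc a t ⟨ht, hs⟩ ε hε U hU hne
        refine ⟨V, hV, hVne, hVU, T₀, fun f hf T hT T' hT' => ?_⟩
        rw [hstat, hstat]
        exact hT₀ f hf T hT T' hT')
      filter_upwards [h1] with f hf a t ht
      obtain ⟨c, hc⟩ := hf a t ht.1 ht.2
      exact ⟨c, hc.congr fun T => hstat a t T f⟩
  · intro hn
    by_contra hcon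
    apply hn
    have h := Pool.Agent.K7.H40.GM.conv_iff X dim stat
    have h1 := h.2 (by
      intro a t ht hs
      by_contra hno
      obtain ⟨ε, hε, U, hU, hne, hg⟩ := Pool.Agent.K7.H40.GM.osc_of_not_locCauchy
        (Pool.Agent.Q205.Baire.nice_S X (stat a) ht) hno
      apply hcon
      refine ⟨a, t, ⟨ht, hs⟩, ε, hε, U, hU, hne, ?_⟩
      filter_upwards [hg] with f hf hfU T₀
      obtain ⟨T, hT, T', hT', hd⟩ := hf hfU T₀
      rw [hstat, hstat] at hd
      exact ⟨T, hT, T', hT', hd⟩)
    filter_upwards [h1] with f hf a t ht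
    obtain ⟨c, hc⟩ := hf a t ht.1 ht.2
    exact ⟨c, hc.congr fun T => hstat a t T f⟩

end Pool.Agent.Results.MP_a825e8_mp.GenericConvergence
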