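import Pool.Agent.K7.H40.GM.Fam
import Pool.Agent.K7.H40.GM.Jt

/-!
# Limits and limit points of the local statistics at generic metrics

`(g_f)`, `f ∈ F`, is a family of Riemannian metrics on a closed surface `M`, with a Baire space `F` of
parameters, continuous in the weak sense that for all `f₀` and `ε > 0` the metrics `g_f` and `g_{f₀}`
differ at most by the factor `(1 + ε) ^ 2` if `f` is near `f₀`. This covers the space of all smooth
metrics with negative curvature and area one with the `C^∞` topology (the coframe `A f i` of the metric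
in a chart is the positive square root of its matrix). The unfolded levels and the local statistics
(nearest neighbour spacings, all `n`-point correlations, averages over `x_k ≤ T`) are those of the
problem. A family `ν` of measures (one for every statistic) is a limit point of a metric if all
statistics are simultaneously close to `ν` for arbitrarily large `T`.

* For the generic metric: if all its statistics converge for `T → ∞`, then they converge jointly for
  `T → ∞` and metrics tending to it. So the statistics of all metrics near it, also of the exceptional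
  ones, are close to its limits, uniformly for all large `T`.
* For the generic metric every limit point of the statistics for `T → ∞` and metrics tending to it is
  a limit point of its own statistics, and every limit point is stable: generic metrics near it have
  statistics close to it for arbitrarily large `T`.
* There are disjoint open sets of metrics with dense union such that the statistics of the generic
  metric of the first one converge jointly, and the statistics of the generic metric of the second one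
  do not converge.
* The statistics of the generic metric of an open set converge to `ν` (for instance to the statistics
  of the GOE) if and only if they converge to any limits and `ν` is a limit point for the metrics of a
  dense subset.
-/

set_option autoImplicit false

open Set Filter Topology MeasureTheory
open scoped Real
open Pool.Agent.Y262.QE

noncomputable section

namespace Pool.Agent.Results.MP_a825e8_mp.LimitPoints

/-- the surface with the charts of `D` and with the metric `v ↦ ‖A i z v‖ ^ 2` in the chart `i` -/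
def metric {M : Type} (D : Data M) (A : Fin D.N → ℂ → ℂ →L[ℝ] ℂ) : Data M :=
  ⟨D.N, D.U, D.φ, D.ψ, A⟩

/-- The family of the metrics `g_f = ‖A f i z v‖ ^ 2` is continuous: `g_f ≤ (1 + ε) ^ 2 g_{f₀}` and
`g_{f₀} ≤ (1 + ε) ^ 2 g_f` for all `f` near `f₀`. -/
def IsContinuousFamily {M : Type} (D : Data M) {F : Type} [TopologicalSpace F]
    (A : F → Fin D.N → ℂ → ℂ →L[ℝ] ℂ) : Prop :=
  ∀ f₀ : F, ∀ ε : ℝ, 0 < ε → ∀ᶠ f in 𝓝 f₀, ∀ i, ∀ z ∈ D.T i, ∀ v,
    ‖A f i z v‖ ≤ (1 + ε) * ‖A f₀ i z v‖ ∧ ‖A f₀ i z v‖ ≤ (1 + ε) * ‖A f i z v‖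

/-- `u 0, u 1, ...` is an orthonormal basis of `L² (μ)` which consists of eigenfunctions of the
Laplacian of the surface `D` with the area `μ`; the eigenvalues `lam 0 ≤ lam 1 ≤ ...` are ordered -/
structure IsEigenbasis {M : Type} [MeasurableSpace M] (D : Data M) (μ : Measure M)
    (u : ℕ → M → ℝ) (lam : ℕ → ℝ) : Prop where
  eig : ∀ j, D.IsEig μ (lam j) (u j)
  mono : Monotone lam
  orth : ∀ i j, ∫ x, u i x * u j x ∂μ = if i = j then 1 else 0
  total : ∀ f : M → ℝ, MemLp f 2 μ → (∀ j, ∫ x, f x * u j x ∂μ = 0) → f =ᵐ[μ] 0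

/-- `x` is the sequence of the unfolded levels of the surface `D` with the area `μ`: the eigenvalues,
listed with multiplicity, times the total area divided by `4 π` -/
def IsUnfolded {M : Type} [MeasurableSpace M] (D : Data M) (μ : Measure M) (x : ℕ → ℝ) : Prop :=
  ∃ (u : ℕ → M → ℝ) (lam : ℕ → ℝ), IsEigenbasis D μ u lam ∧
    ∀ k, x k = μ.real univ / (4 * π) * lam k

/-- the number of the levels `x k ≤ T` -/
def number (T : ℝ) (x : ℕ → ℝ) : ℕ := Set.ncard {k : ℕ | x k ≤ T}

/-- number of variables of the test functions -/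
def dim : Option ℕ → ℕ
  | none => 1
  | some n => n + 1

open Classical in
/-- The local statistics at height `T`: for `none` the nearest neighbour spacings
`(1/T) ∑_{x_k ≤ T} t(x_{k+1} - x_k)`, for `some n` the `(n+2)`-point correlation
`(1/T) ∑ t(x_{k_1} - x_{k_0}, ..., x_{k_{n+1}} - x_{k_0})` over the pairwise distinct indices
`k_0, ..., k_{n+1}` with `x_{k_i} ≤ T`. -/
def statistic : (a : Option ℕ) → ((Fin (dim a) → ℝ) → ℝ) → ℝ → (ℕ → ℝ) → ℝ
  | none, t, T, x => (∑ k ∈ Finset.range (number T x), t (fun _ => x (k + 1) - x k)) / T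
  | some n, t, T, x => (∑ σ ∈ (Fintype.piFinset
      (fun _ : Fin (n + 2) => Finset.range (number T x))).filter (fun σ => Function.Injective σ),
      t (fun j => x (σ j.succ) - x (σ 0))) / T

/-- continuous test functions with compact support -/
def Test {d : ℕ} (t : (Fin d → ℝ) → ℝ) : Prop := Continuous t ∧ HasCompactSupport t

/-- all local statistics of `x` converge to `ν` -/
def Converges (ν : ∀ a, Measure (Fin (dim a) → ℝ)) (x : ℕ → ℝ) : Prop :=
  ∀ a (t : (Fin (dim a) → ℝ) → ℝ), Test t →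
    Tendsto (fun T => statistic a t T x) atTop (𝓝 (∫ z, t z ∂(ν a)))

/-- all local statistics of `x` converge for `T → ∞` -/
def HasLimits (x : ℕ → ℝ) : Prop :=
  ∀ a (t : (Fin (dim a) → ℝ) → ℝ), Test t →
    ∃ c : ℝ, Tendsto (fun T => statistic a t T x) atTop (𝓝 c)

/-- all local statistics of `x g` converge jointly for `T → ∞` and `g → f` -/
def HasJointLimits {F : Type} [TopologicalSpace F] (x : F → ℕ → ℝ) (f : F) : Prop :=
  ∀ a (t : (Fin (dim a) → ℝ) → ℝ), Test t →
    ∃ c : ℝ, Tendsto (fun p : ℝ × F => statistic a t p.1 (x p.2)) (atTop ×ˢ 𝓝 f) (𝓝 c)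

/-- the statistics of `x` at height `T`, for the test functions `t j` and the kinds `a j`, are
within `ε` of the integrals with respect to the measures `ν` -/
def Close (ν : ∀ a, Measure (Fin (dim a) → ℝ)) {n : ℕ} (a : Fin n → Option ℕ)
    (t : ∀ j, (Fin (dim (a j)) → ℝ) → ℝ) (ε T : ℝ) (x : ℕ → ℝ) : Prop :=
  ∀ j, |statistic (a j) (t j) T x - ∫ z, t j z ∂(ν (a j))| < ε

/-- `ν` is a limit point of all local statistics of `x`, for `T → ∞` -/
def IsLimit (ν : ∀ a, Measure (Fin (dim a) → ℝ)) (x : ℕ → ℝ) : Prop :=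
  ∀ (n : ℕ) (a : Fin n → Option ℕ) (t : ∀ j, (Fin (dim (a j)) → ℝ) → ℝ), (∀ j, Test (t j)) →
    ∀ ε : ℝ, 0 < ε → ∀ T₀ : ℝ, ∃ T, T₀ ≤ T ∧ Close ν a t ε T x

/-- `ν` is a limit point of all local statistics of `x g`, for `T → ∞` and `g → f` -/
def IsNearLimit {F : Type} [TopologicalSpace F] (x : F → ℕ → ℝ)
    (ν : ∀ a, Measure (Fin (dim a) → ℝ)) (f : F) : Prop :=
  ∀ (n : ℕ) (a : Fin n → Option ℕ) (t : ∀ j, (Fin (dim (a j)) → ℝ) → ℝ), (∀ j, Test (t j)) →
    ∀ ε : ℝ, 0 < ε → ∀ T₀ : ℝ, ∀ V ∈ 𝓝 f, ∃ g ∈ V, ∃ T, T₀ ≤ T ∧ Close ν a t ε T (x g)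

/-- near `f` the statistics of the generic `x g` are close to `ν` for arbitrarily large `T` -/
def IsStable {F : Type} [TopologicalSpace F] (x : F → ℕ → ℝ)
    (ν : ∀ a, Measure (Fin (dim a) → ℝ)) (f : F) : Prop :=
  ∀ (n : ℕ) (a : Fin n → Option ℕ) (t : ∀ j, (Fin (dim (a j)) → ℝ) → ℝ), (∀ j, Test (t j)) →
    ∀ ε : ℝ, 0 < ε → ∃ V ∈ 𝓝 f, ∀ᶠ g in residual F, g ∈ V →
      ∀ T₀ : ℝ, ∃ T, T₀ ≤ T ∧ Close ν a t ε T (x g)

theorem isLimit_of_converges {ν : ∀ a, Measure (Fin (dim a) → ℝ)} {x : ℕ → ℝ}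
    (h : Converges ν x) : IsLimit ν x := by
  intro n a t ht ε hε T₀
  have h1 : ∀ᶠ T in atTop, Close ν a t ε T x := by
    unfold Close
    rw [eventually_all]
    intro j
    filter_upwards [(Metric.tendsto_nhds.1 (h (a j) (t j) (ht j))) ε hε] with T hT
    rwa [Real.dist_eq] at hT
  obtain ⟨T, hT, hT'⟩ := (h1.and (eventually_ge_atTop T₀)).exists
  exact ⟨T, hT', hT⟩

theorem converges_of_isLimit {ν : ∀ a, Measure (Fin (dim a) → ℝ)} {x : ℕ → ℝ}
    (h : HasLimits x) (h' : IsLimit ν x) : Converges ν x := by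
  intro a t ht
  obtain ⟨c, hc⟩ := h a t ht
  have key : c = ∫ z, t z ∂(ν a) := by
    by_contra hne
    have hpos : 0 < |c - ∫ z, t z ∂(ν a)| := abs_pos.2 (sub_ne_zero.2 hne)
    set δ := |c - ∫ z, t z ∂(ν a)| with hδ
    obtain ⟨T₀, hT₀⟩ := eventually_atTop.1 ((Metric.tendsto_nhds.1 hc) (δ / 2) (by positivity))
    obtain ⟨T, hT, hcl⟩ := h' 1 (fun _ => a) (fun _ => t) (fun _ => ht) (δ / 2) (by positivity) T₀
    have h1 := hT₀ T hT
    have h2 := hcl 0
    rw [Real.dist_eq] at h1
    have h3 : δ ≤ |statistic a t T x - c| + |statistic a t T x - ∫ z, t z ∂(ν a)| := by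
      have e : c - ∫ z, t z ∂(ν a) =
        (statistic a t T x - ∫ z, t z ∂(ν a)) - (statistic a t T x - c) := by ring
      rw [hδ, e, add_comm]
      exact abs_sub _ _
    linarith
  rw [← key]
  exact hc

theorem result (M : Type) [MetricSpace M] [CompactSpace M] [MeasurableSpace M] [BorelSpace M]
    [Nonempty M] (D : Data M) (F : Type) [TopologicalSpace F] [BaireSpace F]
    (A : F → Fin D.N → ℂ → ℂ →L[ℝ] ℂ) (μ : F → Measure M)
    (hD : ∀ f, (metric D (A f)).IsSurf (μ f)) (hA : IsContinuousFamily D A) :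
    -- the unfolded levels exist
    (∀ f, ∃ x, IsUnfolded (metric D (A f)) (μ f) x) ∧
    ∀ x : F → ℕ → ℝ, (∀ f, IsUnfolded (metric D (A f)) (μ f) (x f)) →
      -- limits of the generic metric are joint limits
      (∀ᶠ f in residual F, HasLimits (x f) → HasJointLimits x f) ∧
      -- limit points of the generic metric
      (∀ᶠ f in residual F, ∀ ν : ∀ a, Measure (Fin (dim a) → ℝ),
        (∀ a, IsFiniteMeasureOnCompacts (ν a)) →
          (IsNearLimit x ν f → IsLimit ν (x f)) ∧ (IsLimit ν (x f) → IsStable x ν f)) ∧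
      -- alternative for the convergence
      (∃ U₁ U₂ : Set F, IsOpen U₁ ∧ IsOpen U₂ ∧ Disjoint U₁ U₂ ∧ Dense (U₁ ∪ U₂) ∧
        (∀ᶠ f in residual F, f ∈ U₁ → HasJointLimits x f) ∧
        ∀ᶠ f in residual F, f ∈ U₂ → ¬ HasLimits (x f)) ∧
      -- convergence to given limits
      ∀ ν : ∀ a, Measure (Fin (dim a) → ℝ), (∀ a, IsFiniteMeasureOnCompacts (ν a)) →
        ∀ U : Set F, IsOpen U → ((∀ᶠ f in residual F, f ∈ U → Converges ν (x f)) ↔
          (∀ᶠ f in residual F, f ∈ U → HasLimits (x f)) ∧ U ⊆ closure {f | IsLimit ν (x f)}) := by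
  have hA' : Pool.Agent.K7.H40.GM.Family D.U D.φ A := ⟨hA⟩
  refine ⟨fun f => ?_, ?_⟩
  · obtain ⟨x, u, lam, hu, hx⟩ := Pool.Agent.K7.H40.GM.unf_ex (μ f) (metric D (A f)) (hD f)
    exact ⟨x, u, lam, ⟨hu.eig, hu.mono, hu.orth, hu.total⟩, hx⟩
  intro x hx
  have hx' : ∀ f, Pool.Agent.K7.H40.GM.Unf (metric D (A f)) (μ f) (x f) := by
    intro f
    obtain ⟨u, lam, hu, hxk⟩ := hx f
    exact ⟨u, lam, ⟨hu.eig, hu.mono, hu.orth, hu.total⟩, hxk⟩
  set X : Pool.Agent.Q205.Baire.Spectra F :=
    Pool.Agent.K7.H40.GM.spec (U := D.U) (φ := D.φ) (ψ := D.ψ) hD hA' x hx' with hX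
  let stat : ∀ a : Option ℕ, Pool.Agent.Q205.Baire.LocalStat (Fin (dim a) → ℝ) := fun a =>
    match a with
    | none =>
      { ι := ℕ
        I := fun N => Finset.range N
        φ := fun k y => fun _ => y (k + 1) - y k
        cont := fun k => by fun_prop }
    | some n =>
      { ι := Fin (n + 2) → ℕ
        I := fun N => by
          classical
          exact (Fintype.piFinset (fun _ => Finset.range N)).filter (fun σ => Function.Injective σ)
        φ := fun σ y => fun j => y (σ j.succ) - y (σ 0)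
        cont := fun σ => by fun_prop }
  have hstat : ∀ (a : Option ℕ) (t : (Fin (dim a) → ℝ) → ℝ) (T : ℝ) (f : F),
      Pool.Agent.Q205.Baire.S X (stat a) t T f = statistic a t T (x f) := by
    intro a t T f
    rcases a with _ | n
    · rfl
    · rfl
  have hlims : ∀ f, Pool.Agent.K7.H40.GM.Lims X dim stat f ↔ HasLimits (x f) := by
    intro f
    constructor
    · intro h a t ht
      obtain ⟨c, hc⟩ := h a t ht.1 ht.2
      exact ⟨c, hc.congr fun T => hstat a t T f⟩
    · intro h a t ht hs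
      obtain ⟨c, hc⟩ := h a t ⟨ht, hs⟩
      exact ⟨c, hc.congr fun T => (hstat a t T f).symm⟩
  have hjoint : ∀ f, Pool.Agent.K7.H40.GM.Joint X dim stat f → HasJointLimits x f := by
    intro f h a t ht
    obtain ⟨c, hc⟩ := h a t ht.1 ht.2
    exact ⟨c, hc.congr fun p => hstat a t p.1 p.2⟩
  have hlimit : ∀ᶠ f in residual F, ∀ ν : ∀ a, Measure (Fin (dim a) → ℝ),
      (∀ a, IsFiniteMeasureOnCompacts (ν a)) →
        (IsNearLimit x ν f → IsLimit ν (x f)) ∧ (IsLimit ν (x f) → IsStable x ν f) := by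
    filter_upwards [Pool.Agent.Q205.Baire.generic_limit X dim stat,
      Pool.Agent.Q205.Baire.generic_stable X dim stat] with f h1 h2 ν hν
    have hlim : Pool.Agent.Q205.Baire.Limit X dim stat ν f ↔ IsLimit ν (x f) := by
      constructor
      · intro h n a t ht ε hε T₀
        obtain ⟨T, hT, hj⟩ := h n a t (fun j => (ht j).1) (fun j => (ht j).2) ε hε T₀
        exact ⟨T, hT, fun j => by rw [← hstat]; exact hj j⟩
      · intro h n a t ht hs ε hε T₀
        obtain ⟨T, hT, hj⟩ := h n a t (fun j => ⟨ht j, hs j⟩) ε hε T₀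
        exact ⟨T, hT, fun j => by rw [hstat]; exact hj j⟩
    refine ⟨fun h => ?_, fun h => ?_⟩
    · rw [← hlim]
      refine h1 ν hν fun n a t ht hs ε hε T₀ V hV => ?_
      obtain ⟨g, hg, T, hT, hj⟩ := h n a t (fun j => ⟨ht j, hs j⟩) ε hε T₀ V hV
      exact ⟨g, hg, T, hT, fun j => by rw [hstat]; exact hj j⟩
    · rw [← hlim] at h
      intro n a t ht ε hε
      obtain ⟨V, hV, h3⟩ := h2 ν hν h n a t (fun j => (ht j).1) (fun j => (ht j).2) ε hε
      refine ⟨V, hV, ?_⟩
      filter_upwards [h3] with g h4 hg T₀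
      obtain ⟨T, hT, hj⟩ := h4 hg T₀
      exact ⟨T, hT, fun j => by rw [← hstat]; exact hj j⟩
  refine ⟨?_, hlimit, ?_, fun ν hν U hU => ⟨fun h => ⟨?_, fun f hf => ?_⟩, fun h => ?_⟩⟩
  · filter_upwards [Pool.Agent.K7.H40.GM.ev_joint_of_lims X dim stat] with f hf hl
    exact hjoint f (hf ((hlims f).2 hl))
  · obtain ⟨U₁, U₂, h1, h2, h3, h4, h5, h6⟩ := Pool.Agent.K7.H40.GM.lims_zero_one X dim stat
    refine ⟨U₁, U₂, h1, h2, h3, h4, ?_, ?_⟩
    · filter_upwards [h5] with f hf hfU
      exact hjoint f (hf hfU)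
    · filter_upwards [h6] with f hf hfU hl
      exact hf hfU ((hlims f).2 hl)
  · filter_upwards [h] with f hf hfU a t ht
    exact ⟨_, hf hfU a t ht⟩
  · rw [mem_closure_iff]
    intro O hO hfO
    obtain ⟨g, hg, hg'⟩ := (dense_of_mem_residual h).inter_open_nonempty (O ∩ U) (hO.inter hU)
      ⟨f, hfO, hf⟩
    exact ⟨g, hg.1, isLimit_of_converges (hg' hg.2)⟩
  · obtain ⟨h1, h2⟩ := h
    filter_upwards [h1, hlimit] with f hf hf' hfU
    refine converges_of_isLimit (hf hfU) ((hf' ν hν).1 fun n a t ht ε hε T₀ V hV => ?_)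
    obtain ⟨g, hg, hg'⟩ := mem_closure_iff_nhds.1 (h2 hfU) V hV
    obtain ⟨T, hT, hcl⟩ := hg' n a t ht ε hε T₀
    exact ⟨g, hg, T, hT, hcl⟩

end Pool.Agent.Results.MP_a825e8_mp.LimitPoints
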