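import Pool.Agent.K7.H58.RM.Conn

/-!
# MP_a825e8_mp: the levels of random and of generic conformal metrics

`(M, g)` is a connected closed surface with a continuous Riemannian metric, for instance a smooth
metric of negative curvature. For `φ` in `C(M)` let `x φ 0 ≤ x φ 1 ≤ ...` be the unfolded levels of
the metric `exp φ · g`: the eigenvalues of its Laplacian times `area / (4 π)`.

* Random metrics. Let `P` be a Borel probability measure on `C(M)` which is quasi-invariant under the
  translations by the multiples of the functions of a set with dense span (for instance a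
  nondegenerate Gaussian measure). Then the spectrum is almost surely simple, and the laws of all the
  levels `x k`, `k ≥ 1`, of all the gaps `x k - x j`, and of all `x k - θ x j`, `0 ≤ θ ≤ 1`, `j < k`,
  are absolutely continuous. The pair correlation measure and the measure of the nearest neighbour
  spacings at height `T`, averaged over the random metric, are absolutely continuous for every `T`.
* Generic metrics. Let `F` be a topological vector space with a continuous linear map to `C(M)` with
  dense range, for instance the space of smooth functions. For a generic `φ` in `F` (generic in the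
  sense of Baire; this passes to open subsets, as the set of the metrics of negative curvature) the
  spectrum is simple, and no level `x k`, `k ≥ 1`, no gap `x k - x j` and no `x k - θ x j` belongs to
  a given meagre set of numbers.

The proof: in dimension two the Dirichlet integral is conformally invariant, so the derivative of the
level `x k` in a direction `h` is `x k (∫ h dA / ∫ dA - ∫ h u_k² dA)` for almost every metric of a
line and all unit eigenfunctions `u_k`. On the set where `x k - θ x j` belongs to a null set its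
derivatives vanish almost everywhere. If all derivatives vanish at a metric then
`E_k u_k² = θ E_j u_j² + (E_k - θ E_j) / area`. If `E_k > θ E_j` then `|u_k|` is bounded below by a
positive constant; then the sign of `u_k` is a limit of smooth functions of `u_k` in the form domain
and has no gradient, and testing the eigenvalue equation with it gives `E_k ∫ |u_k| dA = 0`. If
`E_k = θ E_j` then the eigenvalue is not simple, and all its unit eigenfunctions would have the same
square. For generic metrics the same identities follow by continuity of the masses.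
-/

set_option autoImplicit false

open Set Filter Topology MeasureTheory
open scoped Real ContDiff
open Pool.Agent.Y262.QE

noncomputable section

namespace Pool.Agent.Results.MP_a825e8_mp.RandomMetricsLevels

/-- `u 0, u 1, ...` is an orthonormal basis of `L² (μ)` which consists of eigenfunctions of the
Laplacian of the surface `D` with the area `μ`; the eigenvalues `lam 0 ≤ lam 1 ≤ ...` are ordered -/
structure IsEigenbasis {M : Type} [MeasurableSpace M] (D : Data M) (μ : Measure M)
    (u : ℕ → M → ℝ) (lam : ℕ → ℝ) : Prop where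
  eig : ∀ j, D.IsEig μ (lam j) (u j)
  mono : Monotone lam
  orth : ∀ i j, ∫ x, u i x * u j x ∂μ = if i = j then 1 else 0
  total : ∀ f : M → ℝ, MemLp f 2 μ → (∀ j, ∫ x, f x * u j x ∂μ = 0) → f =ᵐ[μ] 0

/-- the surface with the metric `exp φ · g` -/
def surf {M : Type} [TopologicalSpace M] (D : Data M) (φ : C(M, ℝ)) : Data M :=
  D.conf fun x => Real.exp (φ x)

/-- the area of the metric `exp φ · g` -/
def area {M : Type} [TopologicalSpace M] [MeasurableSpace M] (μ : Measure M) (φ : C(M, ℝ)) :
    Measure M :=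
  wm μ fun x => Real.exp (φ x)

/-- `x` is the sequence of the unfolded levels of the metric `exp φ · g`: the eigenvalues, listed
with multiplicity, times the total area divided by `4 π` -/
def IsUnfolded {M : Type} [TopologicalSpace M] [MeasurableSpace M] (D : Data M) (μ : Measure M)
    (φ : C(M, ℝ)) (x : ℕ → ℝ) : Prop :=
  ∃ (u : ℕ → M → ℝ) (lam : ℕ → ℝ), IsEigenbasis (surf D φ) (area μ φ) u lam ∧
    ∀ k, x k = (area μ φ).real univ / (4 * π) * lam k

/-- the number of the levels `x k ≤ T` -/
def number (T : ℝ) (x : ℕ → ℝ) : ℕ := Set.ncard {k : ℕ | x k ≤ T}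

open Classical in
/-- the pair correlation measure at height `T`: the measure `(1/T) ∑ δ (x j - x k)`, the sum over the
pairs `j ≠ k` with `x j, x k ≤ T` -/
def pairCorrelation (T : ℝ) (x : ℕ → ℝ) : Measure ℝ :=
  ENNReal.ofReal (1 / T) • ∑ p ∈ (Finset.range (number T x) ×ˢ Finset.range (number T x)).filter
    (fun p => p.1 ≠ p.2), Measure.dirac (x p.1 - x p.2)

/-- the measure of the nearest neighbour spacings at height `T`: `(1/T) ∑ δ (x (k+1) - x k)`, the sum
over the `k` with `x k ≤ T` -/
def spacings (T : ℝ) (x : ℕ → ℝ) : Measure ℝ :=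
  ENNReal.ofReal (1 / T) • ∑ k ∈ Finset.range (number T x), Measure.dirac (x (k + 1) - x k)

/-- `P` is quasi-invariant under the translations by the multiples of `h` -/
def QuasiInvariant {V : Type} [AddCommGroup V] [Module ℝ V] [MeasurableSpace V] (P : Measure V)
    (h : V) : Prop :=
  ∀ t : ℝ, P.map (fun φ => φ + t • h) ≪ P

theorem dirac_null {y : ℝ} {B N : Set ℝ} (hBN : B ⊆ N) (hN : MeasurableSet N) (hy : y ∉ N) :
    Measure.dirac y B = 0 := by
  refine measure_mono_null hBN ?_
  rw [Measure.dirac_apply' _ hN, indicator_of_notMem hy]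

theorem pair_null (T : ℝ) (x : ℕ → ℝ) {B N : Set ℝ} (hBN : B ⊆ N) (hN : MeasurableSet N)
    (h : ∀ j k, j ≠ k → x j - x k ∉ N) : pairCorrelation T x B = 0 := by
  classical
  unfold pairCorrelation
  rw [Measure.smul_apply, Measure.finsetSum_apply, Finset.sum_eq_zero, smul_zero]
  intro p hp
  exact dirac_null hBN hN (h _ _ (Finset.mem_filter.1 hp).2)

theorem spac_null (T : ℝ) (x : ℕ → ℝ) {B N : Set ℝ} (hBN : B ⊆ N) (hN : MeasurableSet N)
    (h : ∀ j k, j ≠ k → x j - x k ∉ N) : spacings T x B = 0 := by
  unfold spacings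
  rw [Measure.smul_apply, Measure.finsetSum_apply, Finset.sum_eq_zero, smul_zero]
  intro k _
  exact dirac_null hBN hN (h _ _ (by omega))

theorem result (M : Type) [MetricSpace M] [CompactSpace M] [ConnectedSpace M] [MeasurableSpace M]
    [BorelSpace M] (μ : Measure M) (D : Data M) (hD : D.IsSurf μ) :
    -- the unfolded levels exist
    (∀ φ : C(M, ℝ), (surf D φ).IsSurf (area μ φ) ∧ ∃ x, IsUnfolded D μ φ x) ∧
    ∀ x : C(M, ℝ) → ℕ → ℝ, (∀ φ, IsUnfolded D μ φ (x φ)) →
      -- random metrics
      (∀ [MeasurableSpace C(M, ℝ)] [BorelSpace C(M, ℝ)] (P : Measure C(M, ℝ))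
        [IsProbabilityMeasure P] (S : Set C(M, ℝ)), Dense (Submodule.span ℝ S : Set C(M, ℝ)) →
        (∀ h ∈ S, QuasiInvariant P h) →
          (∀ᵐ φ ∂P, StrictMono (x φ)) ∧
          (∀ θ : ℝ, 0 ≤ θ → θ ≤ 1 → ∀ N : Set ℝ, volume N = 0 →
            ∀ᵐ φ ∂P, ∀ j k, j < k → x φ k - θ * x φ j ∉ N) ∧
          ∀ N : Set ℝ, volume N = 0 →
            (∀ᵐ φ ∂P, ∀ T : ℝ, pairCorrelation T (x φ) N = 0 ∧ spacings T (x φ) N = 0) ∧
            ∀ T : ℝ, ∫⁻ φ, pairCorrelation T (x φ) N ∂P = 0 ∧ ∫⁻ φ, spacings T (x φ) N ∂P = 0) ∧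
      -- generic metrics
      (∀ (F : Type) [AddCommGroup F] [Module ℝ F] [TopologicalSpace F] [IsTopologicalAddGroup F]
        [ContinuousSMul ℝ F] (ι : F →L[ℝ] C(M, ℝ)), DenseRange ι →
          (∀ᶠ φ in residual F, StrictMono (x (ι φ))) ∧
          ∀ θ : ℝ, 0 ≤ θ → θ ≤ 1 → ∀ N : Set ℝ, IsMeagre N →
            ∀ᶠ φ in residual F, ∀ j k, j < k → x (ι φ) k - θ * x (ι φ) j ∉ N) := by
  obtain ⟨hf, -⟩ := tFin M μ D hD
  haveI := hf
  haveI : Nonempty M := inferInstance
  obtain ⟨i, a, hSf, hi, ha⟩ := Pool.Agent.Y264.QR.tPackF M μ D hD inferInstance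
  obtain ⟨b, hB, hF, hA, hexp, -⟩ := Pool.Agent.Y264.QR.tFm M μ (Pool.Agent.Y264.QR.HF D μ) i a hSf
  have hW := Pool.Agent.Y264.QR.tWl M μ D hD inferInstance i a b hSf hi ha hB
  have harea : ∀ φ : C(M, ℝ), (area μ φ).real univ = ∫ x, Real.exp (φ x) ∂μ := by
    intro φ
    have hm : Measurable fun x => Real.exp (φ x) :=
      (Real.continuous_exp.comp φ.continuous).measurable
    have h5 : (area μ φ).real univ = ∫ x, (1 : ℝ) ∂(wm μ fun x => Real.exp (φ x)) := by
      simp [area]
    rw [h5, integral_wm μ _ hm fun x => (Real.exp_pos _).le]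
    simp
  have hex : ∀ φ, ∃ (e : ℕ → Pool.Agent.Y264.QR.HF D μ) (E : ℕ → ℝ), Eg a (b φ) e E := by
    intro φ
    obtain ⟨u, lam, h⟩ := Pool.Agent.Y264.QR.tEx M μ D hD inferInstance φ
    obtain ⟨e, -, he2⟩ := Pool.Agent.Y264.QR.tBr M μ D hD i a b hSf hi ha hB hF φ u lam h
    exact ⟨e, lam, he2⟩
  refine ⟨fun φ => ⟨(tConf M μ D hD _
    (Real.continuous_exp.comp φ.continuous) fun x => Real.exp_pos _).1, ?_⟩, ?_⟩
  · obtain ⟨u, lam, h⟩ := Pool.Agent.Y264.QR.tEx M μ D hD inferInstance φ
    exact ⟨fun k => (area μ φ).real univ / (4 * π) * lam k, u, lam,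
      ⟨h.eig, h.mono, h.orth, h.total⟩, fun k => rfl⟩
  intro x hx
  have hxX : ∀ φ k, x φ k = Pool.Agent.Q205.Baire.unf μ a b k φ := by
    intro φ k
    obtain ⟨u, lam, hu, hxk⟩ := hx φ
    obtain ⟨e, he1, he2⟩ := Pool.Agent.Y264.QR.tBr M μ D hD i a b hSf hi ha hB hF φ u lam
      ⟨hu.eig, hu.mono, hu.orth, hu.total⟩
    have hmm : Ev a (b φ) k = lam k :=
      Pool.Agent.Y592.QE.mm _ a (b φ) (hF φ) e lam he2 k
    rw [hxk, harea]
    show _ = (∫ x, Real.exp (φ x) ∂μ) / (4 * π) * Ev a (b φ) k
    rw [hmm]
  -- the levels are positive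
  have hpos : ∀ φ k, 0 < k → 0 < Pool.Agent.Q205.Baire.unf μ a b k φ := by
    intro φ k hk
    obtain ⟨e, E, hE⟩ := hex φ
    have h1 := Pool.Agent.K7.H58.RM.pos_one hD i a hSf hi ha b hB hE
    have hmm : Ev a (b φ) k = E k := Pool.Agent.Y592.QE.mm _ a (b φ) (hF φ) e E hE k
    have h2 : 0 < E k := h1.trans_le (hE.mono hk)
    unfold Pool.Agent.Q205.Baire.unf
    rw [hmm]
    exact mul_pos (div_pos (hA φ) (by positivity)) h2
  have hmono : ∀ φ, Monotone (x φ) := by
    intro φ
    obtain ⟨u, lam, hu, hxk⟩ := hx φ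
    intro j k hjk
    rw [hxk, hxk]
    exact mul_le_mul_of_nonneg_left (hu.mono hjk) (by positivity)
  have hstrict : ∀ φ, (∀ j k, j < k → x φ k - 1 * x φ j ∉ ({0} : Set ℝ)) → StrictMono (x φ) := by
    intro φ h
    refine (hmono φ).strictMono_of_injective ?_
    intro j k hjk
    by_contra hne
    rcases lt_or_gt_of_ne hne with h1 | h1
    · exact h j k h1 (by rw [hjk]; simp)
    · exact h k j h1 (by rw [hjk]; simp)
  refine ⟨?_, ?_⟩
  · intro _ _ P _ S hS hP
    have key : ∀ θ : ℝ, 0 ≤ θ → θ ≤ 1 → ∀ N : Set ℝ, volume N = 0 →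
        ∀ᵐ φ ∂P, ∀ j k, j < k → x φ k - θ * x φ j ∉ N := by
      intro θ h0 h1 N hN
      filter_upwards [Pool.Agent.K7.H58.RM.rand hD i a hSf hi ha b hB hex hW P S hS hP θ h0 h1 N hN]
        with φ hφ j k hjk
      rw [hxX, hxX]
      exact hφ j k hjk (hpos φ k (by omega))
    have key2 : ∀ N : Set ℝ, volume N = 0 →
        ∀ᵐ φ ∂P, ∀ T : ℝ, pairCorrelation T (x φ) N = 0 ∧ spacings T (x φ) N = 0 := by
      intro N hN
      have hN' : volume (toMeasurable volume N) = 0 := by rw [measure_toMeasurable, hN]
      have hN2 : volume (Neg.neg ⁻¹' (toMeasurable volume N)) = 0 := by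
        rw [Measure.measure_preimage_neg]
        exact hN'
      filter_upwards [key 1 zero_le_one le_rfl _ hN', key 1 zero_le_one le_rfl _ hN2] with φ g1 g2
      have g3 : ∀ j k, j ≠ k → x φ j - x φ k ∉ toMeasurable volume N := by
        intro j k hjk
        rcases lt_or_gt_of_ne hjk with h | h
        · have h4 := g2 j k h
          intro h5
          apply h4
          show -(x φ k - 1 * x φ j) ∈ toMeasurable volume N
          rw [one_mul, neg_sub]
          exact h5
        · have h4 := g1 k j h
          rwa [one_mul] at h4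
      intro T
      exact ⟨pair_null T _ (subset_toMeasurable _ _) (measurableSet_toMeasurable _ _) g3,
        spac_null T _ (subset_toMeasurable _ _) (measurableSet_toMeasurable _ _) g3⟩
    refine ⟨?_, key, fun N hN => ⟨key2 N hN, fun T => ⟨?_, ?_⟩⟩⟩
    · filter_upwards [key 1 zero_le_one le_rfl {0} (by simp)] with φ hφ
      exact hstrict φ hφ
    · rw [lintegral_congr_ae (g := fun _ => 0)]
      · exact lintegral_zero
      · filter_upwards [key2 N hN] with φ hφ using (hφ T).1
    · rw [lintegral_congr_ae (g := fun _ => 0)]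
      · exact lintegral_zero
      · filter_upwards [key2 N hN] with φ hφ using (hφ T).2
  · intro F _ _ _ _ _ ι hι
    have key : ∀ θ : ℝ, 0 ≤ θ → θ ≤ 1 → ∀ N : Set ℝ, IsMeagre N →
        ∀ᶠ φ in residual F, ∀ j k, j < k → x (ι φ) k - θ * x (ι φ) j ∉ N := by
      intro θ h0 h1 N hN
      filter_upwards [Pool.Agent.K7.H58.RM.bai hD i a hSf hi ha b hB hex hW ι hι θ h0 h1 N hN]
        with φ hφ j k hjk
      rw [hxX, hxX]
      exact hφ j k hjk (hpos _ k (by omega))
    refine ⟨?_, key⟩
    have h0 : IsMeagre ({0} : Set ℝ) := by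
      rw [isMeagre_iff_countable_union_isNowhereDense]
      refine ⟨{{0}}, ?_, countable_singleton _, by simp⟩
      rintro t rfl
      show interior (closure ({0} : Set ℝ)) = ∅
      rw [closure_singleton, interior_singleton]
    filter_upwards [key 1 zero_le_one le_rfl {0} h0] with φ hφ
    exact hstrict _ hφ

end Pool.Agent.Results.MP_a825e8_mp.RandomMetricsLevels
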