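import Pool.Agent.K7.H40.GM.Fam
import Pool.Agent.K7.H40.GM.Win

/-!
# Local statistics of generic metrics along heights of upper density one

`(g_f)`, `f ∈ F`, is a family of Riemannian metrics on a closed surface `M`, with a Baire space `F` of
parameters, continuous in the weak sense that for all `f₀` and `ε > 0` the metrics `g_f` and `g_{f₀}`
differ at most by the factor `(1 + ε) ^ 2` if `f` is near `f₀`. This covers the space of all smooth
metrics with negative curvature and area one with the `C^∞` topology (the coframe `A f i` of the metric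
in a chart is the positive square root of its matrix). The unfolded levels and the local statistics
(nearest neighbour spacings, all `n`-point correlations, averages over `x_k ≤ T`) are those of the
problem; `ν` is an arbitrary family of candidates for the limits, for instance the statistics of the
GOE.

* Alternative. Either there is a nonempty open set of metrics such that the statistics of no metric in
  this set converge to `ν`, or for the generic metric there is a set `𝒯` of heights of upper density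
  one such that all statistics converge to `ν` for `T → ∞`, `T ∈ 𝒯`. Moreover, for any given continuous
  function `ω` there is such a set `𝒯` which contains the windows `[T, ω T]` for arbitrarily large `T`.
* So if the metrics with the statistics `ν` are dense, then the generic metric has the statistics `ν`
  along heights of upper density one. (The problem asks for all heights.)
* For every `ω` the metrics with the statistics `ν` along a set of heights which contains the windows
  `[T, ω T]` for arbitrarily large `T` are dense in an open set if and only if they are residual in it.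
* For every `ω` there are disjoint open sets of metrics with dense union such that the generic metric
  of the first one has the statistics `ν` along a set of heights with windows `[T, ω T]`, and near every
  metric of the second one there are test functions, `ε > 0` and `T₀` such that for all metrics and all
  `T ≥ T₀` the window `[T, ω T]` contains a height at which the statistics are not within `ε` of `ν`.
* If the metrics for which the statistics converge to any limits are dense, then the statistics of the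
  generic metric are constant up to `ε` on windows `[T, ω T]` for arbitrarily large `T`.
-/

set_option autoImplicit false

open Set Filter Topology MeasureTheory
open scoped Real
open Pool.Agent.Y262.QE

noncomputable section

namespace Pool.Agent.Results.MP_a825e8_mp.UpperDensityOne

/-- the surface with the charts of `D` and with the metric `v ↦ ‖A i z v‖ ^ 2` in the chart `i` -/
def metric {M : Type} (D : Data M) (A : Fin D.N → ℂ → ℂ →L[ℝ] ℂ) : Data M :=
  ⟨D.N, D.U, D.φ, D.ψ, A⟩

/-- The family of the metrics `g_f = ‖A f i z v‖ ^ 2` is continuous: `g_f ≤ (1 + ε) ^ 2 g_{f₀}` and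
`g_{f₀} ≤ (1 + ε) ^ 2 g_f` for all `f` near `f₀`. -/
def IsContinuousFamily {M : Type} (D : Data M) {F : Type} [TopologicalSpace F]
    (A : F → Fin D.N → ℂ → ℂ →L[ℝ] ℂ) : Prop :=
  ∀ f₀ : F, ∀ ε : ℝ, 0 < ε → ∀ᶠ f in 𝓝 f₀, ∀ i, ∀ z ∈ D.T i, ∀ v,
    ‖A f i z v‖ ≤ (1 + ε) * ‖A f₀ i z v‖ ∧ ‖A f₀ i z v‖ ≤ (1 + ε) * ‖A f i z v‖

/-- `u 0, u 1, ...` is an orthonormal basis of `L² (μ)` which consists of eigenfunctions of the
Laplacian of the surface `D` with the area `μ`; the eigenvalues `lam 0 ≤ lam 1 ≤ ...` are ordered -/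
structure IsEigenbasis {M : Type} [MeasurableSpace M] (D : Data M) (μ : Measure M)
    (u : ℕ → M → ℝ) (lam : ℕ → ℝ) : Prop where
  eig : ∀ j, D.IsEig μ (lam j) (u j)
  mono : Monotone lam
  orth : ∀ i j, ∫ x, u i x * u j x ∂μ = if i = j then 1 else 0
  total : ∀ f : M → ℝ, MemLp f 2 μ → (∀ j, ∫ x, f x * u j x ∂μ = 0) → f =ᵐ[μ] 0

/-- `x` is the sequence of the unfolded levels of the surface `D` with the area `μ`: the eigenvalues,
listed with multiplicity, times the total area divided by `4 π` -/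
def IsUnfolded {M : Type} [MeasurableSpace M] (D : Data M) (μ : Measure M) (x : ℕ → ℝ) : Prop :=
  ∃ (u : ℕ → M → ℝ) (lam : ℕ → ℝ), IsEigenbasis D μ u lam ∧
    ∀ k, x k = μ.real univ / (4 * π) * lam k

/-- the number of the levels `x k ≤ T` -/
def number (T : ℝ) (x : ℕ → ℝ) : ℕ := Set.ncard {k : ℕ | x k ≤ T}

/-- number of variables of the test functions -/
def dim : Option ℕ → ℕ
  | none => 1
  | some n => n + 1

open Classical in
/-- The local statistics at height `T`: for `none` the nearest neighbour spacings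
`(1/T) ∑_{x_k ≤ T} t(x_{k+1} - x_k)`, for `some n` the `(n+2)`-point correlation
`(1/T) ∑ t(x_{k_1} - x_{k_0}, ..., x_{k_{n+1}} - x_{k_0})` over the pairwise distinct indices
`k_0, ..., k_{n+1}` with `x_{k_i} ≤ T`. -/
def statistic : (a : Option ℕ) → ((Fin (dim a) → ℝ) → ℝ) → ℝ → (ℕ → ℝ) → ℝ
  | none, t, T, x => (∑ k ∈ Finset.range (number T x), t (fun _ => x (k + 1) - x k)) / T
  | some n, t, T, x => (∑ σ ∈ (Fintype.piFinset
      (fun _ : Fin (n + 2) => Finset.range (number T x))).filter (fun σ => Function.Injective σ),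
      t (fun j => x (σ j.succ) - x (σ 0))) / T

/-- continuous test functions with compact support -/
def Test {d : ℕ} (t : (Fin d → ℝ) → ℝ) : Prop := Continuous t ∧ HasCompactSupport t

/-- all local statistics of `x` converge to `ν` -/
def Converges (ν : ∀ a, Measure (Fin (dim a) → ℝ)) (x : ℕ → ℝ) : Prop :=
  ∀ a (t : (Fin (dim a) → ℝ) → ℝ), Test t →
    Tendsto (fun T => statistic a t T x) atTop (𝓝 (∫ z, t z ∂(ν a)))

/-- the statistics of `x` at height `T`, for the test functions `t j` and the kinds `a j`, are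
within `ε` of the integrals with respect to the measures `ν` -/
def Close (ν : ∀ a, Measure (Fin (dim a) → ℝ)) {n : ℕ} (a : Fin n → Option ℕ)
    (t : ∀ j, (Fin (dim (a j)) → ℝ) → ℝ) (ε T : ℝ) (x : ℕ → ℝ) : Prop :=
  ∀ j, |statistic (a j) (t j) T x - ∫ z, t j z ∂(ν (a j))| < ε

/-- all local statistics of `x` converge to `ν` along the heights in `𝒯` -/
def ConvergesAlong (𝒯 : Set ℝ) (ν : ∀ a, Measure (Fin (dim a) → ℝ)) (x : ℕ → ℝ) : Prop :=
  ∀ a (t : (Fin (dim a) → ℝ) → ℝ), Test t →
    Tendsto (fun T => statistic a t T x) (atTop ⊓ 𝓟 𝒯) (𝓝 (∫ z, t z ∂(ν a)))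

/-- `𝒯` contains the windows `[T, ω T]` for arbitrarily large `T` -/
def HasWindows (ω : ℝ → ℝ) (𝒯 : Set ℝ) : Prop := ∀ T₀ : ℝ, ∃ T, T₀ ≤ T ∧ Icc T (ω T) ⊆ 𝒯

/-- `𝒯` has upper density one: for all `η > 0` there are arbitrarily large `T` such that the part of
`[0, T]` outside of `𝒯` has measure at most `η T`. -/
def UpperDensityOne (𝒯 : Set ℝ) : Prop :=
  ∀ η : ℝ, 0 < η → ∀ T₀ : ℝ, ∃ T, T₀ ≤ T ∧ 0 < T ∧ volume (Icc 0 T \ 𝒯) ≤ ENNReal.ofReal (η * T)

/-- all statistics converge to `ν` along a set of heights with windows `[T, ω T]` -/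
def InWindows (ω : ℝ → ℝ) (ν : ∀ a, Measure (Fin (dim a) → ℝ)) (x : ℕ → ℝ) : Prop :=
  ∃ 𝒯 : Set ℝ, HasWindows ω 𝒯 ∧ ConvergesAlong 𝒯 ν x

/-- all statistics converge to `ν` along a set of heights of upper density one -/
def AlongUpperDensityOne (ν : ∀ a, Measure (Fin (dim a) → ℝ)) (x : ℕ → ℝ) : Prop :=
  ∃ 𝒯 : Set ℝ, UpperDensityOne 𝒯 ∧ ConvergesAlong 𝒯 ν x

/-- Near `f` all windows `[T, ω T]` with large `T` contain a height at which the statistics are not
close to `ν`, uniformly for all parameters near `f`. -/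
def MissedNear {F : Type} [TopologicalSpace F] (x : F → ℕ → ℝ) (ω : ℝ → ℝ)
    (ν : ∀ a, Measure (Fin (dim a) → ℝ)) (f : F) : Prop :=
  ∃ (n : ℕ) (a : Fin n → Option ℕ) (t : ∀ j, (Fin (dim (a j)) → ℝ) → ℝ), (∀ j, Test (t j)) ∧
    ∃ ε : ℝ, 0 < ε ∧ ∃ T₀ : ℝ, ∃ V ∈ 𝓝 f, ∀ g ∈ V, ∀ T, T₀ ≤ T →
      ∃ s ∈ Icc T (ω T), ¬ Close ν a t ε s (x g)

theorem result (M : Type) [MetricSpace M] [CompactSpace M] [MeasurableSpace M] [BorelSpace M]
    [Nonempty M] (D : Data M) (F : Type) [TopologicalSpace F] [BaireSpace F]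
    (A : F → Fin D.N → ℂ → ℂ →L[ℝ] ℂ) (μ : F → Measure M)
    (hD : ∀ f, (metric D (A f)).IsSurf (μ f)) (hA : IsContinuousFamily D A) :
    -- the unfolded levels exist
    (∀ f, ∃ x, IsUnfolded (metric D (A f)) (μ f) x) ∧
    ∀ x : F → ℕ → ℝ, (∀ f, IsUnfolded (metric D (A f)) (μ f) (x f)) →
      (∀ ν : ∀ a, Measure (Fin (dim a) → ℝ), (∀ a, IsFiniteMeasureOnCompacts (ν a)) →
        -- alternative
        ((∃ U : Set F, IsOpen U ∧ U.Nonempty ∧ ∀ f ∈ U, ¬ Converges ν (x f)) ∨
          ((∀ᶠ f in residual F, AlongUpperDensityOne ν (x f)) ∧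
            ∀ ω : ℝ → ℝ, Continuous ω → ∀ᶠ f in residual F, InWindows ω ν (x f))) ∧
        -- open sets in which the metrics with the statistics `ν` are dense
        (∀ U : Set F, IsOpen U → U ⊆ closure {f | Converges ν (x f)} →
          (∀ᶠ f in residual F, f ∈ U → AlongUpperDensityOne ν (x f)) ∧
            ∀ ω : ℝ → ℝ, Continuous ω → ∀ᶠ f in residual F, f ∈ U → InWindows ω ν (x f)) ∧
        ∀ ω : ℝ → ℝ, Continuous ω →
          -- dense and residual are the same
          (∀ U : Set F, IsOpen U → (U ⊆ closure {f | InWindows ω ν (x f)} ↔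
            ∀ᶠ f in residual F, f ∈ U → InWindows ω ν (x f))) ∧
          -- local alternative
          ∃ U₁ U₂ : Set F, IsOpen U₁ ∧ IsOpen U₂ ∧ Disjoint U₁ U₂ ∧ Dense (U₁ ∪ U₂) ∧
            (∀ᶠ f in residual F, f ∈ U₁ → InWindows ω ν (x f)) ∧
            ∀ f ∈ U₂, MissedNear x ω ν f) ∧
      -- limits which may depend on the metric
      ∀ ω : ℝ → ℝ, Continuous ω → ∀ U : Set F, IsOpen U →
        (U ⊆ closure {f | ∀ a (t : (Fin (dim a) → ℝ) → ℝ), Test t →
          ∃ c, Tendsto (fun T => statistic a t T (x f)) atTop (𝓝 c)}) →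
        ∀ (n : ℕ) (a : Fin n → Option ℕ) (t : ∀ j, (Fin (dim (a j)) → ℝ) → ℝ), (∀ j, Test (t j)) →
          ∀ᶠ f in residual F, f ∈ U → ∀ ε : ℝ, 0 < ε → ∀ T₀ : ℝ, ∃ T, T₀ ≤ T ∧ ∃ c : Fin n → ℝ,
            ∀ s ∈ Icc T (ω T), ∀ j, |statistic (a j) (t j) s (x f) - c j| < ε := by
  have hA' : Pool.Agent.K7.H40.GM.Family D.U D.φ A := ⟨hA⟩
  refine ⟨fun f => ?_, ?_⟩
  · obtain ⟨x, u, lam, hu, hx⟩ := Pool.Agent.K7.H40.GM.unf_ex (μ f) (metric D (A f)) (hD f)
    exact ⟨x, u, lam, ⟨hu.eig, hu.mono, hu.orth, hu.total⟩, hx⟩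
  intro x hx
  have hx' : ∀ f, Pool.Agent.K7.H40.GM.Unf (metric D (A f)) (μ f) (x f) := by
    intro f
    obtain ⟨u, lam, hu, hxk⟩ := hx f
    exact ⟨u, lam, ⟨hu.eig, hu.mono, hu.orth, hu.total⟩, hxk⟩
  set X : Pool.Agent.Q205.Baire.Spectra F :=
    Pool.Agent.K7.H40.GM.spec (U := D.U) (φ := D.φ) (ψ := D.ψ) hD hA' x hx' with hX
  let stat : ∀ a : Option ℕ, Pool.Agent.Q205.Baire.LocalStat (Fin (dim a) → ℝ) := fun a =>
    match a with
    | none =>
      { ι := ℕ
        I := fun N => Finset.range N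
        φ := fun k y => fun _ => y (k + 1) - y k
        cont := fun k => by fun_prop }
    | some n =>
      { ι := Fin (n + 2) → ℕ
        I := fun N => by
          classical
          exact (Fintype.piFinset (fun _ => Finset.range N)).filter (fun σ => Function.Injective σ)
        φ := fun σ y => fun j => y (σ j.succ) - y (σ 0)
        cont := fun σ => by fun_prop }
  have hmono : ∀ a, Monotone (stat a).I := by
    intro a N N' h
    rcases a with _ | n
    · exact Finset.range_mono h
    · exact Finset.filter_subset_filter _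
        (Fintype.piFinset_subset _ _ fun _ => Finset.range_mono h)
  have hstat : ∀ (a : Option ℕ) (t : (Fin (dim a) → ℝ) → ℝ) (T : ℝ) (f : F),
      Pool.Agent.Q205.Baire.S X (stat a) t T f = statistic a t T (x f) := by
    intro a t T f
    rcases a with _ | n
    · rfl
    · rfl
  have hcls : ∀ (ν : ∀ a, Measure (Fin (dim a) → ℝ)) {n : ℕ} (a : Fin n → Option ℕ)
      (t : ∀ j, (Fin (dim (a j)) → ℝ) → ℝ) (ε T : ℝ) (f : F),
      Pool.Agent.K7.H40.GM.Cls X dim stat ν a t ε T f ↔ Close ν a t ε T (x f) := by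
    intro ν n a t ε T f
    unfold Pool.Agent.K7.H40.GM.Cls Close
    simp only [hstat]
  have hgood : ∀ (ν : ∀ a, Measure (Fin (dim a) → ℝ)) (f : F),
      Pool.Agent.Q205.Baire.Good X dim stat ν f ↔ Converges ν (x f) := by
    intro ν f
    constructor
    · intro h a t ht
      exact (h a t ht.1 ht.2).congr fun T => hstat a t T f
    · intro h a t ht hs
      exact (h a t ⟨ht, hs⟩).congr fun T => (hstat a t T f).symm
  have hwin : ∀ (ω : ℝ → ℝ) (ν : ∀ a, Measure (Fin (dim a) → ℝ)),
      (∀ a, IsFiniteMeasureOnCompacts (ν a)) → ∀ f : F,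
      (Pool.Agent.K7.H40.GM.Win X dim stat ω ν f ↔ InWindows ω ν (x f)) := by
    intro ω ν hν f
    haveI := hν
    rw [Pool.Agent.K7.H40.GM.win_iff X dim stat ω ν f]
    constructor
    · rintro ⟨𝒯, h1, h2⟩
      exact ⟨𝒯, h1, fun a t ht => (h2 a t ht.1 ht.2).congr fun T => hstat a t T f⟩
    · rintro ⟨𝒯, h1, h2⟩
      exact ⟨𝒯, h1, fun a t ht hs => (h2 a t ⟨ht, hs⟩).congr fun T => (hstat a t T f).symm⟩
  have hdens : ∀ (ν : ∀ a, Measure (Fin (dim a) → ℝ)) (f : F),
      InWindows (fun T => T ^ 2) ν (x f) → AlongUpperDensityOne ν (x f) := by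
    rintro ν f ⟨𝒯, h1, h2⟩
    exact ⟨𝒯, fun η hη T₀ => Pool.Agent.K7.H40.GM.density_of_subset h1 hη T₀, h2⟩
  have hmain : ∀ ν : ∀ a, Measure (Fin (dim a) → ℝ), (∀ a, IsFiniteMeasureOnCompacts (ν a)) →
      ∀ U : Set F, IsOpen U → U ⊆ closure {f | Converges ν (x f)} → ∀ ω : ℝ → ℝ, Continuous ω →
        ∀ᶠ f in residual F, f ∈ U → InWindows ω ν (x f) := by
    intro ν hν U hU hd ω hω
    haveI := hν
    have h1 : U ⊆ closure {f | Pool.Agent.K7.H40.GM.Win X dim stat ω ν f} :=
      hd.trans (closure_mono fun f hf =>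
        Pool.Agent.K7.H40.GM.win_of_good X dim stat ((hgood ν f).2 hf))
    filter_upwards [Pool.Agent.K7.H40.GM.window_dense X dim stat hmono hω ν hU h1] with f hf hfU
    exact (hwin ω ν hν f).1 (hf hfU)
  refine ⟨fun ν hν => ⟨?_, fun U hU hd => ⟨?_, hmain ν hν U hU hd⟩, fun ω hω => ⟨?_, ?_⟩⟩, ?_⟩
  · by_cases hden : Dense {f | Converges ν (x f)}
    · right
      have h1 : (univ : Set F) ⊆ closure {f | Converges ν (x f)} := by
        rw [hden.closure_eq]
      have h2 : ∀ ω : ℝ → ℝ, Continuous ω → ∀ᶠ f in residual F, InWindows ω ν (x f) := by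
        intro ω hω
        filter_upwards [hmain ν hν univ isOpen_univ h1 ω hω] with f hf
        exact hf (mem_univ f)
      refine ⟨?_, h2⟩
      filter_upwards [h2 (fun T => T ^ 2) (by fun_prop)] with f hf
      exact hdens ν f hf
    · left
      refine ⟨(closure {f | Converges ν (x f)})ᶜ, isClosed_closure.isOpen_compl, ?_,
        fun f hf hc => hf (subset_closure hc)⟩
      rw [nonempty_compl]
      exact fun h => hden (dense_iff_closure_eq.2 h)
  · filter_upwards [hmain ν hν U hU hd (fun T => T ^ 2) (by fun_prop)] with f hf hfU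
    exact hdens ν f (hf hfU)
  · intro U hU
    haveI := hν
    constructor
    · intro hd
      have h1 : U ⊆ closure {f | Pool.Agent.K7.H40.GM.Win X dim stat ω ν f} :=
        hd.trans (closure_mono fun f hf => (hwin ω ν hν f).2 hf)
      filter_upwards [Pool.Agent.K7.H40.GM.window_dense X dim stat hmono hω ν hU h1] with f hf hfU
      exact (hwin ω ν hν f).1 (hf hfU)
    · intro h f hf
      rw [mem_closure_iff]
      intro W hW hfW
      obtain ⟨g, ⟨hgW, hgU⟩, hg⟩ :=
        (dense_of_mem_residual h).inter_open_nonempty (W ∩ U) (hW.inter hU) ⟨f, hfW, hf⟩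
      exact ⟨g, hgW, hg hgU⟩
  · haveI := hν
    obtain ⟨U₁, U₂, h1, h2, h3, h4, h5, h6⟩ :=
      Pool.Agent.K7.H40.GM.window_alternative X dim stat hmono hω ν
    refine ⟨U₁, U₂, h1, h2, h3, h4, ?_, fun f hf => ?_⟩
    · filter_upwards [h5] with f hf hfU
      exact (hwin ω ν hν f).1 (hf hfU)
    · obtain ⟨n, a, t, ht, hs, ε, hε, T₀, V, hV, h⟩ := (h6 f).1 hf
      refine ⟨n, a, t, fun j => ⟨ht j, hs j⟩, ε, hε, T₀, V, hV, fun g hg T hT => ?_⟩
      obtain ⟨s, hs', hno⟩ := h g hg T hT
      exact ⟨s, hs', fun hc => hno ((hcls ν a t ε s g).2 hc)⟩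
  · intro ω hω U hU hd n a t ht
    have h1 : U ⊆ closure {g | ∀ a, ∀ f : (Fin (dim a) → ℝ) → ℝ, Continuous f →
        HasCompactSupport f → ∃ c, Tendsto (fun T =>
          Pool.Agent.Q205.Baire.S X (stat a) f T g) atTop (𝓝 c)} := by
      refine hd.trans (closure_mono fun f hf a t ht hs => ?_)
      obtain ⟨c, hc⟩ := hf a t ⟨ht, hs⟩
      exact ⟨c, hc.congr fun T => (hstat a t T f).symm⟩
    filter_upwards [Pool.Agent.K7.H40.GM.window_osc X dim stat hmono hω a t
      (fun j => (ht j).1) (fun j => (ht j).2) hU h1] with f hf hfU ε hε T₀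
    obtain ⟨T, hT, c, hc⟩ := hf hfU ε hε T₀
    refine ⟨T, hT, c, fun s hs j => ?_⟩
    rw [← hstat]
    exact hc s hs j

end Pool.Agent.Results.MP_a825e8_mp.UpperDensityOne
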